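import Pool.Agent.H732R3.W8
import Pool.Agent.H141R2.FS.Main1

set_option autoImplicit false

open Filter

namespace Pool.Agent.Results.MP_40574a_nt.AdmissibleSets

/-- For every `m` there is `k` such that for every admissible finite set `H` of natural numbers with at
least `k` elements all large `n` not divisible by `4` have the following property: there is `t` such that
at least `m` of the numbers `t + h`, `h ∈ H`, are prime, and every `t + h`, `h ∈ H`, is the value of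
`x + 2 y + 5 z` at a representation `n = x² + y² + z² + w²` in natural numbers, and is coprime to `30` with
`29 n ≤ (t + h)² ≤ 30 n`. -/
theorem result :
    ∀ m : ℕ, ∃ k : ℕ, ∀ H : Finset ℕ, k ≤ H.card →
      (∀ p : ℕ, p.Prime → ∃ c : ℕ, ∀ h ∈ H, ¬ p ∣ c + h) →
      ∃ N₀ : ℕ, ∀ n : ℕ, N₀ ≤ n → ¬ 4 ∣ n →
        ∃ t : ℕ, m ≤ (H.filter (fun h => (t + h).Prime)).card ∧
          ∀ h ∈ H, Nat.Coprime (t + h) 30 ∧ 29 * n ≤ (t + h) ^ 2 ∧ (t + h) ^ 2 ≤ 30 * n ∧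
            ∃ x y z w : ℕ, n = x ^ 2 + y ^ 2 + z ^ 2 + w ^ 2 ∧ t + h = x + 2 * y + 5 * z := by
  intro m
  obtain ⟨k, hk⟩ := Pool.Agent.H732R3.Win.tuples m
  refine ⟨k, fun H hH hadm => ?_⟩
  obtain ⟨P, c, hP, hcop, hW⟩ := hk H hH hadm
  have h1 := hW (995 / 1000) (by norm_num) (by norm_num)
  set C : ℕ := c + H.sup id with hCdef
  have hhC : ∀ h ∈ H, c + h ≤ C := fun h hh => Nat.add_le_add_left (Finset.le_sup (f := id) hh) c
  have hP0 : (0 : ℝ) < P := by exact_mod_cast hP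
  have ht : Tendsto (fun n : ℕ => √(30 * (n : ℝ))) atTop atTop := by
    apply Tendsto.comp Real.tendsto_sqrt_atTop
    exact tendsto_natCast_atTop_atTop.const_mul_atTop (by norm_num)
  have ht2 : Tendsto (fun n : ℕ => (√(30 * (n : ℝ)) + (-(C : ℝ))) / P) atTop atTop :=
    (tendsto_atTop_add_const_right _ _ ht).atTop_div_const hP0
  have h2 := ht2.eventually h1
  have h3 := ht.eventually_ge_atTop (1000 * (C + 1 : ℝ))
  have h4 := h2.and h3
  rw [eventually_atTop] at h4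
  obtain ⟨N₀, hN⟩ := h4
  refine ⟨N₀, fun n hn h4n => ?_⟩
  obtain ⟨⟨N, hN1, hN2, hN3⟩, hN4⟩ := hN n hn
  set s := √(30 * (n : ℝ)) with hs
  have hs2 : s ^ 2 = 30 * n := Real.sq_sqrt (by positivity)
  have hC0 : (0 : ℝ) ≤ C := Nat.cast_nonneg C
  refine ⟨P * N + c, hN3, fun h hh => ?_⟩
  have hN5 : (P : ℝ) * N ≤ s - C := by
    rw [le_div_iff₀ hP0] at hN2
    linarith
  have hN6 : (995 / 1000 : ℝ) ^ 2 * (s - C) < P * N := by
    have h5 := mul_lt_mul_of_pos_right hN1 hP0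
    have h6 : (995 / 1000 : ℝ) ^ 2 * ((s + (-(C : ℝ))) / P) * P = (995 / 1000 : ℝ) ^ 2 * (s - C) := by
      field_simp
      ring
    rw [h6] at h5
    linarith
  have hc0 : (0 : ℝ) ≤ c := Nat.cast_nonneg c
  have hh0 : (0 : ℝ) ≤ h := Nat.cast_nonneg h
  have hhC' : (c : ℝ) + h ≤ C := by exact_mod_cast hhC h hh
  have hple : ((P * N + c + h : ℕ) : ℝ) ≤ s := by
    push_cast
    linarith
  have hpge : (989 / 1000 : ℝ) * s ≤ ((P * N + c + h : ℕ) : ℝ) := by
    push_cast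
    nlinarith
  have hp3 : (P * N + c + h) ^ 2 ≤ 30 * n := by
    have h5 : ((P * N + c + h : ℕ) : ℝ) ^ 2 ≤ 30 * n := by
      rw [← hs2]
      exact pow_le_pow_left₀ (Nat.cast_nonneg _) hple 2
    exact_mod_cast h5
  have hs0 : 0 ≤ s := Real.sqrt_nonneg _
  have hp4 : 29 * n ≤ (P * N + c + h) ^ 2 := by
    have h5 : (29 : ℝ) * n ≤ ((P * N + c + h : ℕ) : ℝ) ^ 2 := by
      have h6 : ((989 / 1000 : ℝ) * s) ^ 2 ≤ ((P * N + c + h : ℕ) : ℝ) ^ 2 :=
        pow_le_pow_left₀ (by positivity) hpge 2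
      rw [mul_pow, hs2] at h6
      have hn0 : (0 : ℝ) ≤ n := Nat.cast_nonneg n
      linarith
    exact_mod_cast h5
  have hp5 := hcop h hh N
  obtain ⟨x, y, z, w, h6, h7⟩ := Pool.Agent.H141R2.FS.rep h4n hp5 hp4 hp3
  exact ⟨hp5, hp4, hp3, x, y, z, w, h6, h7.symm⟩

end Pool.Agent.Results.MP_40574a_nt.AdmissibleSets
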